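import Mathlib

set_option autoImplicit false
set_option linter.style.longLine false

/-!
# The Cairns-type 2-complex `𝒞` has a straight realization in `ℝ⁴`

The complex `𝒞` of the problem has the 10 vertices `A₀, A₁, B₁, …, B₄, C, D₁, D₂, D₃`, 25 triangles
and 31 edges. We give explicit integer coordinates for a geometric simplicial complex in `ℝ⁴`
which is combinatorially equivalent to `𝒞`. For every pair of maximal faces a hyperplane is given
which contains their common vertices and has the other vertices of the two faces strictly on its two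
sides.
-/

namespace Pool.Agent.Results.MP_cc703c_co.RealizationInR4

/-- The vertex `A₀`. -/
abbrev A0 : Fin 10 := 0
/-- The vertex `A₁`. -/
abbrev A1 : Fin 10 := 1
/-- The vertex `B₁`. -/
abbrev B1 : Fin 10 := 2
/-- The vertex `B₂`. -/
abbrev B2 : Fin 10 := 3
/-- The vertex `B₃`. -/
abbrev B3 : Fin 10 := 4
/-- The vertex `B₄`. -/
abbrev B4 : Fin 10 := 5
/-- The vertex `C`. -/
abbrev C : Fin 10 := 6
/-- The vertex `D₁`. -/
abbrev D1 : Fin 10 := 7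
/-- The vertex `D₂`. -/
abbrev D2 : Fin 10 := 8
/-- The vertex `D₃`. -/
abbrev D3 : Fin 10 := 9

/-- The maximal faces of `𝒞`: its 25 triangles and the four further edges. -/
def maxFaces : List (List (Fin 10)) :=
  [[A0, B1, B2], [A0, B2, B3], [A0, B3, B1], [A1, B1, B2], [A1, B2, B4],
   [A1, B4, B3], [A1, B3, B1], [C, B2, B3], [C, B3, B4], [C, B4, B2],
   [C, A0, B1], [C, A0, B2], [C, A0, B3], [C, A1, B1], [C, A1, B2],
   [C, A1, B3], [C, A1, B4], [C, B1, B2], [C, B1, B3], [D1, D2, B3],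
   [D2, D3, B1], [D3, D1, B2], [B1, B2, D3], [B2, B3, D1], [B3, B1, D2],
   [A0, A1], [C, D1], [C, D2], [C, D3]]

/-- The nonempty faces of `𝒞`: the nonempty sets of vertices contained in a maximal face. -/
def IsFace (s : Finset (Fin 10)) : Prop :=
  s.Nonempty ∧ ∃ F ∈ maxFaces, ∀ i ∈ s, i ∈ F

/-- `ℝ^m` contains a complex combinatorially equivalent to `𝒞`: there is a geometric simplicial
complex in `ℝ^m` (simplices meeting only in common faces) whose faces are exactly the images of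
the faces of `𝒞` under an injective placement `p` of the ten vertices. -/
def RealizableIn (m : ℕ) : Prop :=
  ∃ (K : Geometry.SimplicialComplex ℝ (EuclideanSpace ℝ (Fin m)))
    (p : Fin 10 → EuclideanSpace ℝ (Fin m)), Function.Injective p ∧
      K.faces = {t | ∃ s : Finset (Fin 10), IsFace s ∧ t = s.image p}

/-- integer coordinates of the ten vertices -/
def V : Fin 10 → Fin 4 → ℤ :=
  ![![-2, 0, 1, 0],
    ![0, 3, 3, 2],
    ![2, 1, 3, 2],
    ![2, 2, -1, 2],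
    ![3, 0, 1, -2],
    ![0, 3, 2, -2],
    ![-2, 2, 1, -3],
    ![-2, 2, -2, 2],
    ![2, -3, -1, 3],
    ![-2, -2, 3, 1]]

/-- value of an affine function with integer coefficients at the vertex `i` -/
def fv (c : ℤ × ℤ × ℤ × ℤ × ℤ) (i : Fin 10) : ℤ :=
  c.1 * V i 0 + c.2.1 * V i 1 + c.2.2.1 * V i 2 + c.2.2.2.1 * V i 3 + c.2.2.2.2

/-- certificates of affine independence of the maximal faces -/
def dualTab : List (List (ℤ × ℤ × ℤ × ℤ × ℤ)) :=
  [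
   [(-1, 0, 0, 0, 2), (0, -1, -1, 0, 1), (0, 0, -1, 1, 1)],
   [(-2, -1, 0, 0, 6), (0, -1, 0, 0, 0), (0, -1, 0, 1, 0)],
   [(-1, -1, 0, 0, 3), (0, 0, -1, 1, 1), (0, -1, 0, 0, 0)],
   [(-1, 0, 0, 0, 2), (-2, 0, -1, 0, 3), (0, 0, -1, 0, 3)],
   [(-2, 0, 0, 1, 2), (-1, 0, 0, 0, 0), (0, 0, 0, -1, 2)],
   [(0, 0, 0, -1, -2), (0, 0, -2, 1, 4), (-1, 0, 0, 0, 0)],
   [(-2, 0, -1, 0, 7), (0, 0, -1, 0, 3), (-2, 0, -1, -1, 5)],
   [(0, -1, -1, 0, 1), (0, 0, -1, 0, 1), (0, -1, 0, 0, 2)],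
   [(0, 0, 0, -1, -2), (0, -1, 0, 1, 5), (0, 0, -1, 0, 1)],
   [(-2, 0, 0, 1, 2), (0, -1, 0, 0, 2), (0, -1, 0, 1, 5)],
   [(0, 0, -1, 1, 1), (-1, 1, 0, 1, -1), (-1, 0, 0, 0, -2)],
   [(0, -1, -1, 0, 1), (0, -1, 0, 0, 2), (-1, 0, 0, 0, -2)],
   [(0, -1, 0, 0, 0), (0, -1, 0, -2, -4), (-1, 0, 0, 0, -2)],
   [(0, 0, -1, 0, 3), (-1, 0, 2, 0, -4), (-1, 0, 1, 0, -3)],
   [(0, 0, 0, -1, 2), (0, -1, 0, 0, 2), (-1, 0, 1, 0, -3)],
   [(-1, -1, 0, 0, 3), (0, 0, -1, 0, 1), (-1, 0, 1, 0, -3)],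
   [(-1, 0, 0, 0, 0), (0, -1, 0, 1, 5), (-1, 0, 1, 0, -3)],
   [(-1, 0, 0, 0, 2), (0, -1, 0, 0, 2), (-1, 0, 2, 0, -4)],
   [(-1, -1, 0, 0, 3), (0, 0, -1, 0, 1), (-1, 0, 2, 0, -4)],
   [(-2, 0, 1, 0, 5), (-1, -1, 1, 0, 2), (0, 0, -1, 1, -4)],
   [(0, 0, -1, 0, 3), (-1, 0, 0, 0, 2), (-1, 0, -1, 0, 1)],
   [(0, -1, 0, 0, 2), (-1, 0, -1, 0, 1), (-1, 0, 0, 0, -2)],
   [(-1, 0, -1, 0, 1), (0, 0, -1, 0, 3), (-1, 0, 0, 0, 2)],
   [(-1, -1, 1, 0, 2), (0, -1, 0, 0, 2), (0, -1, -1, 0, 1)],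
   [(-1, 0, 0, 0, 2), (-2, 0, 1, 0, 5), (-1, -1, 0, 0, 3)],
   [(-1, 0, 0, 0, 0), (-1, 0, 0, 0, -2)],
   [(0, 0, -1, 0, -2), (0, 0, -1, 0, 1)],
   [(-1, 0, 0, 0, 2), (-1, 0, 0, 0, -2)],
   [(0, -1, 0, 0, -2), (0, -1, 0, 0, 2)]]

/-- separating hyperplanes for pairs of maximal faces -/
def sepTab : List (List (ℤ × ℤ × ℤ × ℤ × ℤ)) :=
  [
   [(0, -1, 0, 1, 0), (0, 0, -1, 1, 1), (1, 0, 0, -3, 4), (0, -1, 0, 0, 2), (0, -2, 0, 2, 1),
    (0, -1, -1, 1, 2), (-1, -1, 0, 1, 2), (0, 0, 0, 1, 1), (-1, -1, 0, 1, 2), (0, 0, -1, 1, 1),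
    (0, -1, 0, 1, 0), (0, 0, 0, 1, 0), (0, -1, -1, 1, 2), (0, -2, 0, 1, 2), (0, -2, 0, 2, 1),
    (0, -2, 0, 2, 1), (-1, 0, 0, 1, 0), (0, -1, -1, 1, 2), (0, 1, 2, 1, -1), (0, 1, 0, -1, 1),
    (0, 2, 1, -2, 1), (1, 0, 0, -3, 4), (0, -2, 1, 2, 1), (-1, 1, 0, 0, 1), (1, -1, 0, 0, 2),
    (0, 0, 2, 2, -1), (0, 2, 2, 2, -1), (0, 0, -2, 2, 3)],
   [(0, 0, -1, 0, 1), (-1, 0, -1, -1, 3), (0, -1, 0, 0, 2), (-1, -1, -1, 0, 4), (-1, -1, -1, 0,
    4), (0, -2, 0, 1, 2), (0, -1, 0, 1, 2), (0, -2, -1, 0, 3), (1, -1, -2, 0, 4), (1, -2, 0, 0,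
    2), (0, -1, -2, 0, 2), (0, -1, -1, 0, 2), (0, -2, -1, 0, 3), (0, -1, -1, 1, 3), (0, -1, -1,
    0, 2), (0, -2, -1, 0, 3), (0, -1, -2, 1, 4), (0, 2, 3, 1, -1), (0, 0, -2, -2, 3), (1, 0, 0,
    -3, 4), (0, 0, -1, -2, 3), (0, -1, 1, 1, 1), (-1, 1, -1, -1, 2), (1, -1, 0, 0, 2), (1, -1,
    0, 0, 3), (2, 2, 6, 2, -1), (0, -1, -2, 0, 3)],
   [(0, -1, 0, 0, 1), (0, -2, 0, 0, 3), (0, -2, 0, 1, 2), (0, -2, -1, 1, 3), (0, -3, 0, 1, 2),
    (0, -1, 0, 1, 2), (0, -2, 0, 0, 3), (1, -2, -1, 0, 3), (1, -3, 0, 0, 2), (0, -1, 1, 0, -1),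
    (0, -1, 0, 0, 1), (0, -2, 0, 0, 3), (0, -2, 0, 1, 2), (0, -2, 0, 0, 3), (0, -1, 0, 0, 1),
    (0, 0, -2, 1, 4), (-1, 0, 2, 0, 1), (0, 1, 0, -1, 1), (0, 2, 2, -2, -1), (0, 1, 1, -2, 0),
    (-1, 0, 2, 0, 1), (-2, 0, 1, -1, 3), (1, -1, 0, 0, 2), (0, -2, 0, 0, 3), (0, -2, 4, 0, -3),
    (0, 0, -4, 2, 9)],
   [(2, 0, 1, 0, -3), (0, -1, 0, 1, 1), (0, 0, -1, 1, 1), (0, 0, 1, 1, -1), (0, 0, 0, 1, 1),
    (0, 0, 1, 1, -1), (0, 1, 0, 1, -3), (1, 0, 1, 0, -1), (0, 0, 0, 1, -1), (0, 0, -1, 1, 1),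
    (2, 0, 1, 0, -3), (0, -1, 0, 1, 1), (0, -1, 0, 1, 1), (-1, 0, 0, 1, 0), (0, 1, 0, 1, -3),
    (0, 2, 2, 2, -5), (0, 1, 0, 0, -1), (0, 1, 1, 1, -3), (0, 4, 1, 0, -7), (0, 0, 1, 1, -1),
    (0, 1, 0, 0, -1), (1, 0, 0, 0, 0), (1, 0, 0, 0, 1), (0, 1, 0, 1, -1), (0, 0, 0, 2, -3)],
   [(2, 3, 0, 0, -9), (-1, 0, -1, 0, 3), (0, 1, 2, 1, -2), (0, 0, 1, 1, 0), (0, 1, 1, 1, -3),
    (1, 2, 0, 0, -5), (1, 0, 1, 0, -1), (0, 2, 0, 2, -1), (0, 3, -1, 0, -6), (2, 0, 1, -1, -1),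
    (0, 3, -1, 0, -6), (1, 0, 0, 0, 0), (1, 3, 0, 0, -8), (1, 2, 0, 0, -5), (0, 2, 2, 2, -5),
    (0, 2, 0, 0, -3), (0, 2, 1, 0, -3), (0, 1, 0, 0, -2), (0, 2, 1, 0, -3), (0, 2, 0, 0, -3),
    (0, 1, -1, 0, 0), (1, 0, 0, 0, 1), (0, 2, 0, 2, -1), (1, 0, 0, 0, 1)],
   [(-2, 0, -1, -1, 5), (1, 1, 1, 0, -4), (0, 0, 0, 1, 2), (1, 0, 1, 0, -2), (2, 4, -2, 0, -3),
    (2, 0, 2, 0, -3), (1, 1, 1, 0, -4), (2, 3, 0, -1, -7), (1, 0, 2, -1, -4), (1, 1, 2, -1,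
    -7), (1, 0, 0, 0, 0), (4, 6, 2, -2, -17), (1, 2, -1, 0, -2), (0, 0, 1, 0, -1), (0, 2, -2,
    0, 3), (0, 2, 0, -2, -1), (0, 2, 0, -2, -1), (0, 0, 1, 0, -1), (0, 1, -1, 0, 1), (0, 1, 0,
    -1, -1), (1, 0, 0, 0, 1), (2, 0, 2, 0, -3), (1, 0, 0, 0, 1)],
   [(0, -1, 2, 0, -2), (0, -1, 0, 1, 2), (0, -2, 2, 0, 1), (2, 3, -1, 0, -4), (1, 0, 1, 0, -2),
    (1, 0, 0, 1, -1), (1, 1, -1, 0, 0), (0, -1, 1, 0, 0), (0, -2, 1, 1, 1), (0, -1, 1, 0, 0),
    (2, 3, 1, -1, -8), (2, 4, -1, 0, -5), (0, 0, 1, 0, -1), (0, 1, 0, -1, 1), (1, 0, 1, 0, -2),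
    (0, 1, 1, -1, -2), (0, 0, 1, 0, -1), (0, 2, -1, 0, 1), (1, 0, 0, 0, 0), (1, 0, 0, 0, 1),
    (1, 0, 1, 0, -2), (1, 0, 0, 0, 1)],
   [(0, 0, -1, 0, 1), (0, -1, 0, 0, 2), (1, 0, -1, -1, 0), (1, 1, 2, 0, -2), (1, 2, -1, -1,
    -4), (0, -1, -1, 0, 3), (0, -1, 0, 0, 2), (0, 0, -1, 0, 1), (0, -1, -1, 0, 3), (2, 0, -1,
    -2, -1), (0, 0, -1, 0, 1), (1, 3, 0, -1, -5), (0, 0, -2, -2, 3), (1, 0, 0, -1, 0), (0, 0,
    -1, -1, 1), (0, 1, 1, 0, -1), (0, 1, -1, 0, 1), (1, 0, 0, -1, 1), (1, 0, 1, 0, 1), (1, 1,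
    0, 0, 0), (1, 0, -1, 0, 3)],
   [(0, -1, 1, 0, 1), (1, 0, 0, -1, -1), (1, 0, 0, -1, -1), (1, 2, 0, -1, -5), (1, 0, 0, -1,
    -1), (1, 0, 0, -1, -1), (1, 2, 0, -1, -5), (1, -1, -1, 0, 5), (1, 0, 0, -1, -1), (1, 2, 0,
    -1, -5), (0, 0, 1, -1, -3), (0, 0, 0, -1, 0), (0, 0, 0, -1, 0), (0, 0, 0, -1, 0), (0, 0, 1,
    -1, -3), (-1, 0, 0, -1, 1), (0, 0, 0, -1, -1), (1, 0, 0, -1, -1), (1, 0, 0, -1, -1), (1, 0,
    -1, 0, 3)],
   [(0, 2, -1, 0, -3), (0, 1, 0, 0, -2), (0, 2, -1, 0, -3), (1, 1, -2, 0, 2), (2, 0, -1, -2,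
    -1), (0, 3, -2, 0, -4), (0, 1, -1, 0, -1), (0, 1, 0, 0, -2), (0, 2, -1, 0, -3), (0, 4, 2,
    0, -5), (0, 2, 0, 0, -3), (1, 0, 0, -1, 0), (0, 0, -1, -1, 1), (0, 2, 1, 0, -3), (0, 2, 0,
    0, -3), (0, 2, -2, 0, -1), (1, 0, 1, 0, 1), (1, 1, 0, 0, 0), (1, 0, -1, 0, 3)],
   [(0, 0, 1, 0, -1), (-1, 0, 3, 0, -5), (0, -2, -1, 0, 5), (0, -3, 1, 0, 5), (-2, -4, 0, 1,
    7), (0, -1, 0, 0, 2), (-1, -2, 1, 0, 1), (-1, 1, 0, 1, -1), (-2, 0, 2, 0, -1), (0, 1, 0,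
    -1, 1), (0, 2, 2, -2, -1), (0, 1, 1, -2, 0), (-2, 0, 2, 0, -1), (-1, 0, 1, 0, -1), (1, -1,
    0, -1, 2), (0, -1, 1, 0, 1), (0, 1, 1, 1, 0), (0, 1, -1, 1, 2)],
   [(-1, 0, -3, 0, 1), (0, -1, -1, 0, 3), (0, -1, 0, 0, 2), (-1, 0, -2, 1, 3), (0, -1, -1, 0,
    3), (-1, -1, -2, 0, 2), (-1, 0, -1, 1, 2), (0, 2, 4, 2, -1), (0, 0, -2, -2, 3), (1, 0, 0,
    -3, 4), (0, 0, -1, -2, 3), (-1, 1, 5, 2, 1), (-2, 2, 0, 0, 1), (0, 0, -2, -1, 2), (0, 0, 2,
    1, 1), (-1, 1, 0, 1, -1), (0, 1, -1, 1, 2)],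
   [(0, -1, -1, 0, 3), (0, -2, 0, -1, 1), (-1, -3, 0, -1, 1), (0, -1, 0, 0, 2), (0, -2, 0, -1,
    1), (-1, -3, 0, -1, 1), (-1, -1, 0, -1, 1), (0, 0, 0, -2, 1), (0, 0, 0, -2, 1), (0, 0, 0,
    -2, 1), (-1, -1, 0, -1, 1), (-1, 0, 0, -1, 1), (0, 0, 0, -1, 0), (0, -1, 1, 0, 1), (0, -1,
    3, 0, -1), (0, -1, -3, 0, 5)],
   [(0, -2, 1, 0, 3), (-1, -2, 2, 0, 0), (0, -2, 1, 0, 3), (-1, 0, 2, 0, -4), (-1, 0, 2, 0,
    -4), (-2, 0, 2, 0, -1), (0, 1, 0, 0, -1), (0, 1, 1, 0, -2), (0, 1, 1, -1, -2), (-2, 0, 2,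
    0, -1), (0, 1, 0, 0, -1), (1, 0, 1, -1, -1), (0, 0, 1, 0, -1), (0, 0, 1, 0, -1), (0, 1, 1,
    0, -3)],
   [(0, 2, -1, 0, -3), (-1, -1, -1, 1, 4), (0, 1, 0, 0, -2), (-1, 0, -1, 1, 2), (0, 4, 2, 0,
    -5), (0, 2, 0, 0, -3), (0, 2, 1, 0, -3), (0, 1, 0, -1, 0), (0, 2, 1, 0, -3), (0, 2, 0, 0,
    -3), (0, 1, -1, 0, 0), (1, 0, 1, 0, 1), (1, 1, 0, 0, 0), (1, 1, 0, 0, 0)],
   [(0, -2, 1, 0, 3), (2, 3, 2, -2, -10), (1, 2, 1, -1, -6), (0, 1, 1, 0, -1), (0, 2, -2, 0,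
    3), (0, 2, 0, -2, -1), (0, 2, 0, -2, -1), (-1, 0, 1, -1, 0), (0, 1, -1, 0, 1), (0, 1, 0,
    -1, -1), (0, -1, 1, 0, 1), (1, 1, 0, 0, 0), (1, 1, 0, 0, 0)],
   [(-1, 1, 2, 0, -6), (0, 1, 0, 0, -2), (-1, 0, 1, 0, -1), (0, 2, 0, 0, -3), (0, 2, 0, -2,
    -1), (-1, 1, 0, 0, -1), (-1, 0, 1, 0, -1), (-1, 0, 0, 0, 1), (0, 1, -1, 0, 0), (0, 0, 1, 0,
    -1), (0, 0, 1, 0, -1), (0, 1, 0, 0, -2)],
   [(-1, 1, 0, 1, -1), (0, 4, 2, 0, -5), (0, 1, 0, 0, -1), (0, 2, 1, 0, -3), (1, 0, 0, -1, 0),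
    (0, 2, 1, 0, -3), (0, 1, 0, 0, -1), (1, 0, 0, -1, 1), (1, 0, 1, 0, 1), (1, 1, 0, 0, 0), (1,
    0, -1, 0, 3)],
   [(0, 1, 1, 0, -1), (0, 1, 0, -1, 1), (0, 1, 1, -1, -1), (0, 1, 1, -1, -2), (-1, 0, 2, 0, 1),
    (0, 0, 2, -1, -4), (1, 0, 0, -1, 1), (0, -1, 1, 0, 1), (1, 1, 0, 0, 0), (1, 0, -1, 0, 3)],
   [(0, 0, -1, -1, 2), (0, -2, -2, -1, 2), (0, -1, -2, -1, 1), (-1, -1, 1, 0, 2), (-2, -1, 0,
    -1, 4), (1, 0, -1, 0, 2), (1, 0, -1, 0, 0), (1, 1, -1, 0, 0), (1, 0, -1, 0, 2)],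
   [(1, -1, 1, 0, -3), (1, -1, 0, -1, 1), (0, -2, 0, 2, -1), (-1, 0, 0, 0, 2), (0, -2, 0, 2,
    -1), (0, -2, 0, 0, 3), (0, 0, 1, 1, -2), (0, 0, 0, 1, -1)],
   [(-1, 0, -1, 0, 1), (0, -1, 0, 1, 0), (-2, 2, 0, 0, 1), (0, -2, -2, 2, 1), (0, 0, 1, 1, 0),
    (0, 1, 1, 1, -1), (0, 0, 0, 1, -1)],
   [(0, 0, 1, 1, -1), (-1, 1, 0, 0, 1), (1, -1, 0, 0, 1), (0, 0, 2, 2, -1), (0, 1, 1, 1, -1),
    (0, 0, 0, 1, -1)],
   [(0, 1, -1, 0, 1), (1, 0, -1, 0, 2), (1, 0, -1, 0, 0), (1, 1, -1, 0, -1), (1, 0, -1, 0, 2)],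
   [(1, 0, 0, 0, -1), (0, -2, 0, 0, 3), (1, 0, 1, 0, -1), (1, 0, 0, 0, 1)],
   [(0, -2, 2, 0, 1), (-2, 0, 0, 2, -3), (0, 0, -2, 2, 3)],
   [(-1, 0, -1, 0, -1), (0, 0, -1, 0, 1)],
   [(0, 0, -1, 0, 1)],
   []]

/-- the affine function `c` separates `s` and `t` -/
def good (s t : List (Fin 10)) (c : ℤ × ℤ × ℤ × ℤ × ℤ) : Bool :=
  (s.all fun i => if t.contains i then fv c i == 0 else 0 < fv c i) &&
    (t.all fun i => if s.contains i then true else fv c i < 0)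

/-- all the given affine functions separate `s` from the members of the list -/
def goodRow (s : List (Fin 10)) : List (List (Fin 10)) → List (ℤ × ℤ × ℤ × ℤ × ℤ) → Bool
  | [], _ => true
  | _ :: _, [] => false
  | t :: l, c :: r => good s t c && goodRow s l r

/-- all pairs are separated -/
def goodAll : List (List (Fin 10)) → List (List (ℤ × ℤ × ℤ × ℤ × ℤ)) → Bool
  | [], _ => true
  | _ :: _, [] => false
  | s :: l, r :: R => goodRow s l r && goodAll l R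

/-- the functions of the row are a dual system for `s` -/
def dualRow (s : List (Fin 10)) : List (Fin 10) → List (ℤ × ℤ × ℤ × ℤ × ℤ) → Bool
  | [], _ => true
  | _ :: _, [] => false
  | i :: l, c :: r => (s.all fun j => if j = i then !(fv c j == 0) else fv c j == 0) &&
      dualRow s l r

/-- every maximal face has a dual system -/
def dualAll : List (List (Fin 10)) → List (List (ℤ × ℤ × ℤ × ℤ × ℤ)) → Bool
  | [], _ => true
  | _ :: _, [] => false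
  | s :: l, r :: R => dualRow s s r && dualAll l R

lemma goodAll_tab : goodAll maxFaces sepTab = true := by decide +kernel

lemma dualAll_tab : dualAll maxFaces dualTab = true := by decide +kernel

lemma goodRow_spec (s : List (Fin 10)) : ∀ (l : List (List (Fin 10)))
    (r : List (ℤ × ℤ × ℤ × ℤ × ℤ)), goodRow s l r = true → ∀ t ∈ l, ∃ c, good s t c = true := by
  intro l
  induction l with
  | nil => intro r _ t ht; simp at ht
  | cons t l ih =>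
    intro r hr t' ht'
    cases r with
    | nil => simp [goodRow] at hr
    | cons c r =>
      simp only [goodRow, Bool.and_eq_true] at hr
      rcases List.mem_cons.1 ht' with rfl | h
      · exact ⟨c, hr.1⟩
      · exact ih r hr.2 t' h

lemma goodAll_spec : ∀ (l : List (List (Fin 10))) (R : List (List (ℤ × ℤ × ℤ × ℤ × ℤ))),
    goodAll l R = true → ∀ s ∈ l, ∀ t ∈ l, s = t ∨ (∃ c, good s t c = true) ∨
      ∃ c, good t s c = true := by
  intro l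
  induction l with
  | nil => intro R _ s hs; simp at hs
  | cons a l ih =>
    intro R hR s hs t ht
    cases R with
    | nil => simp [goodAll] at hR
    | cons r R =>
      simp only [goodAll, Bool.and_eq_true] at hR
      rcases List.mem_cons.1 hs with rfl | hs'
      · rcases List.mem_cons.1 ht with rfl | ht'
        · exact Or.inl rfl
        · exact Or.inr (Or.inl (goodRow_spec _ _ _ hR.1 t ht'))
      · rcases List.mem_cons.1 ht with rfl | ht'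
        · exact Or.inr (Or.inr (goodRow_spec _ _ _ hR.1 s hs'))
        · exact ih R hR.2 s hs' t ht'

lemma dualRow_spec (s : List (Fin 10)) : ∀ (l : List (Fin 10))
    (r : List (ℤ × ℤ × ℤ × ℤ × ℤ)), dualRow s l r = true →
      ∀ i ∈ l, ∃ c, fv c i ≠ 0 ∧ ∀ j ∈ s, j ≠ i → fv c j = 0 ∨ i ∉ s := by
  intro l
  induction l with
  | nil => intro r _ i hi; simp at hi
  | cons i l ih =>
    intro r hr i' hi'
    cases r with
    | nil => simp [dualRow] at hr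
    | cons c r =>
      simp only [dualRow, Bool.and_eq_true, List.all_eq_true] at hr
      rcases List.mem_cons.1 hi' with rfl | h
      · by_cases his : i' ∈ s
        · refine ⟨c, ?_, ?_⟩
          · have := hr.1 i' his
            simpa using this
          · intro j hj hji
            have := hr.1 j hj
            rw [if_neg hji] at this
            left
            simpa using this
        · exact ⟨(0, 0, 0, 0, 1), by simp [fv], fun j _ _ => Or.inr his⟩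
      · exact ih r hr.2 i' h

lemma dualAll_spec : ∀ (l : List (List (Fin 10))) (R : List (List (ℤ × ℤ × ℤ × ℤ × ℤ))),
    dualAll l R = true → ∀ s ∈ l, ∀ i ∈ s, ∃ c, fv c i ≠ 0 ∧ ∀ j ∈ s, j ≠ i → fv c j = 0 := by
  intro l
  induction l with
  | nil => intro R _ s hs; simp at hs
  | cons a l ih =>
    intro R hR s hs i hi
    cases R with
    | nil => simp [dualAll] at hR
    | cons r R =>
      simp only [dualAll, Bool.and_eq_true] at hR
      rcases List.mem_cons.1 hs with rfl | hs'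
      · obtain ⟨c, h1, h2⟩ := dualRow_spec _ _ _ hR.1 i hi
        refine ⟨c, h1, fun j hj hji => ?_⟩
        rcases h2 j hj hji with h | h
        · exact h
        · exact absurd hi h
      · exact ih R hR.2 s hs' i hi

/-- the vertices as points of `ℝ⁴` -/
noncomputable def pt (i : Fin 10) : EuclideanSpace ℝ (Fin 4) :=
  WithLp.toLp 2 (fun k => (V i k : ℝ))

lemma V_inj : Function.Injective V := by decide +kernel

lemma pt_inj : Function.Injective pt := by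
  intro i j h
  apply V_inj
  funext k
  have h1 := congrArg (fun x : EuclideanSpace ℝ (Fin 4) => x k) h
  have h2 : (V i k : ℝ) = (V j k : ℝ) := h1
  exact_mod_cast h2

/-- the linear part of the affine function `c` -/
noncomputable def lp (c : ℤ × ℤ × ℤ × ℤ × ℤ) (x : EuclideanSpace ℝ (Fin 4)) : ℝ :=
  c.1 * x 0 + c.2.1 * x 1 + c.2.2.1 * x 2 + c.2.2.2.1 * x 3

lemma lp_sum (c : ℤ × ℤ × ℤ × ℤ × ℤ) (s : Finset (Fin 10)) (w : Fin 10 → ℝ) :
    ∑ i ∈ s, w i * (fv c i : ℝ) = lp c (∑ i ∈ s, w i • pt i) + c.2.2.2.2 * ∑ i ∈ s, w i := by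
  classical
  induction s using Finset.induction_on with
  | empty => simp [lp]
  | insert a s ha ih =>
    rw [Finset.sum_insert ha, Finset.sum_insert ha, Finset.sum_insert ha, ih]
    simp only [lp, PiLp.add_apply, PiLp.smul_apply, smul_eq_mul, pt, fv]
    push_cast
    ring

lemma mem_hull {s : Finset (Fin 10)} {x : EuclideanSpace ℝ (Fin 4)} :
    x ∈ convexHull ℝ (↑(s.image pt) : Set (EuclideanSpace ℝ (Fin 4))) ↔
      ∃ w : Fin 10 → ℝ, (∀ i ∈ s, 0 ≤ w i) ∧ ∑ i ∈ s, w i = 1 ∧ ∑ i ∈ s, w i • pt i = x := by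
  classical
  rw [Finset.mem_convexHull']
  constructor
  · rintro ⟨w, h0, h1, h2⟩
    refine ⟨fun i => w (pt i), ?_, ?_, ?_⟩
    · intro i hi
      exact h0 _ (Finset.mem_image_of_mem _ hi)
    · rw [Finset.sum_image (fun a _ b _ h => pt_inj h)] at h1
      exact h1
    · rw [Finset.sum_image (fun a _ b _ h => pt_inj h)] at h2
      exact h2
  · rintro ⟨w, h0, h1, h2⟩
    have hinv : ∀ i, Function.invFun pt (pt i) = i := Function.leftInverse_invFun pt_inj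
    refine ⟨fun y => w (Function.invFun pt y), ?_, ?_, ?_⟩
    · intro y hy
      obtain ⟨i, hi, rfl⟩ := Finset.mem_image.1 hy
      simp only [hinv]
      exact h0 i hi
    · rw [Finset.sum_image (fun a _ b _ h => pt_inj h)]
      simp only [hinv]
      exact h1
    · rw [Finset.sum_image (fun a _ b _ h => pt_inj h)]
      simp only [hinv]
      exact h2

/-- affine independence of the maximal faces, in terms of weights -/
lemma indep_weights {F : List (Fin 10)} (hF : F ∈ maxFaces) {s : Finset (Fin 10)}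
    (hs : ∀ i ∈ s, i ∈ F) (w : Fin 10 → ℝ) (h0 : ∑ i ∈ s, w i = 0)
    (h1 : ∑ i ∈ s, w i • pt i = 0) : ∀ i ∈ s, w i = 0 := by
  intro i hi
  obtain ⟨c, hc1, hc2⟩ := dualAll_spec _ _ dualAll_tab F hF i (hs i hi)
  have h := lp_sum c s w
  rw [h0, h1] at h
  have h3 : lp c 0 = 0 := by simp [lp]
  rw [h3, mul_zero, add_zero] at h
  rw [Finset.sum_eq_single_of_mem i hi] at h
  · have h4 : (fv c i : ℝ) ≠ 0 := by exact_mod_cast hc1
    rcases mul_eq_zero.1 h with h5 | h5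
    · exact h5
    · exact absurd h5 h4
  · intro j hj hji
    rw [hc2 j (hs j hj) hji]
    simp

lemma indep_face {s : Finset (Fin 10)} (hs : IsFace s) :
    AffineIndependent ℝ (fun x : {x // x ∈ Finset.image pt s} =>
      (x : EuclideanSpace ℝ (Fin 4))) := by
  classical
  obtain ⟨-, F, hF, hsF⟩ := hs
  have key : AffineIndependent ℝ (fun i : s => pt i) := by
    rw [affineIndependent_iff]
    intro t w h0 h1 i hi
    let w' : Fin 10 → ℝ := fun j => if h : j ∈ s then (if (⟨j, h⟩ : s) ∈ t then w ⟨j, h⟩ else 0) else 0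
    have e : ∀ j : s, w' j = if j ∈ t then w j else 0 := by
      intro j
      simp only [w', j.2, dif_pos]
    have e0 : ∑ j ∈ s, w' j = ∑ j ∈ t, w j := by
      rw [← Finset.sum_coe_sort s]
      simp only [e]
      rw [Finset.sum_ite_mem, Finset.univ_inter]
    have e1 : ∑ j ∈ s, w' j • pt j = ∑ j ∈ t, w j • pt j := by
      rw [← Finset.sum_coe_sort s (fun j => w' j • pt j)]
      simp only [e, ite_smul, zero_smul]
      rw [Finset.sum_ite_mem, Finset.univ_inter]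
    have h3 := indep_weights hF hsF w' (e0.trans h0) (e1.trans h1) i i.2
    rw [e i, if_pos hi] at h3
    exact h3
  have h2 := key.range
  have h3 : Set.range (fun i : s => pt i) = (↑(s.image pt) : Set (EuclideanSpace ℝ (Fin 4))) := by
    ext x
    simp
  rw [h3] at h2
  exact h2

/-- two maximal faces meet in the face spanned by the common vertices -/
lemma inter_max {F G : List (Fin 10)} (hF : F ∈ maxFaces) (hG : G ∈ maxFaces)
    {w v : Fin 10 → ℝ} (hw : ∀ i ∈ F.toFinset, 0 ≤ w i) (hw1 : ∑ i ∈ F.toFinset, w i = 1)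
    (hv : ∀ i ∈ G.toFinset, 0 ≤ v i) (hv1 : ∑ i ∈ G.toFinset, v i = 1)
    (h : ∑ i ∈ F.toFinset, w i • pt i = ∑ i ∈ G.toFinset, v i • pt i) :
    (∀ i ∈ F.toFinset, i ∉ G.toFinset → w i = 0) ∧
      (∀ i ∈ G.toFinset, i ∉ F.toFinset → v i = 0) := by
  classical
  -- the statement for a separating function
  have key : ∀ {F G : List (Fin 10)} {w v : Fin 10 → ℝ}, (∀ i ∈ F.toFinset, 0 ≤ w i) →
      ∑ i ∈ F.toFinset, w i = 1 → (∀ i ∈ G.toFinset, 0 ≤ v i) → ∑ i ∈ G.toFinset, v i = 1 →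
      ∑ i ∈ F.toFinset, w i • pt i = ∑ i ∈ G.toFinset, v i • pt i →
      ∀ c, good F G c = true → (∀ i ∈ F.toFinset, i ∉ G.toFinset → w i = 0) ∧
      (∀ i ∈ G.toFinset, i ∉ F.toFinset → v i = 0) := by
    intro F G w v hw hw1 hv hv1 h c hc
    simp only [good, Bool.and_eq_true, List.all_eq_true] at hc
    obtain ⟨hc1, hc2⟩ := hc
    have hF1 : ∀ i ∈ F.toFinset, i ∈ G.toFinset → fv c i = 0 := by
      intro i hi hi'
      have := hc1 i (List.mem_toFinset.1 hi)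
      rw [if_pos (by simpa using hi')] at this
      simpa using this
    have hF2 : ∀ i ∈ F.toFinset, i ∉ G.toFinset → 0 < fv c i := by
      intro i hi hi'
      have := hc1 i (List.mem_toFinset.1 hi)
      rw [if_neg (by simpa using hi')] at this
      simpa using this
    have hG2 : ∀ i ∈ G.toFinset, i ∉ F.toFinset → fv c i < 0 := by
      intro i hi hi'
      have := hc2 i (List.mem_toFinset.1 hi)
      rw [if_neg (by simpa using hi')] at this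
      simpa using this
    have a1 := lp_sum c F.toFinset w
    have a2 := lp_sum c G.toFinset v
    rw [h, hw1] at a1
    rw [hv1, ← a1] at a2
    have b1 : ∀ i ∈ F.toFinset, 0 ≤ w i * (fv c i : ℝ) := by
      intro i hi
      apply mul_nonneg (hw i hi)
      by_cases h' : i ∈ G.toFinset
      · rw [hF1 i hi h']; simp
      · have := hF2 i hi h'
        exact_mod_cast this.le
    have b2 : ∀ i ∈ G.toFinset, v i * (fv c i : ℝ) ≤ 0 := by
      intro i hi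
      apply mul_nonpos_of_nonneg_of_nonpos (hv i hi)
      by_cases h' : i ∈ F.toFinset
      · rw [hF1 i h' hi]; simp
      · have := hG2 i hi h'
        exact_mod_cast this.le
    have c1 : 0 ≤ ∑ i ∈ F.toFinset, w i * (fv c i : ℝ) := Finset.sum_nonneg b1
    have c2 : ∑ i ∈ G.toFinset, v i * (fv c i : ℝ) ≤ 0 := Finset.sum_nonpos b2
    rw [a2] at c2
    have d1 : ∑ i ∈ F.toFinset, w i * (fv c i : ℝ) = 0 := le_antisymm c2 c1
    have d2 : ∑ i ∈ G.toFinset, v i * (fv c i : ℝ) = 0 := a2.trans d1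
    constructor
    · intro i hi hi'
      have h5 := (Finset.sum_eq_zero_iff_of_nonneg b1).1 d1 i hi
      have h6 := hF2 i hi hi'
      rcases mul_eq_zero.1 h5 with h7 | h7
      · exact h7
      · have : fv c i = 0 := by exact_mod_cast h7
        omega
    · intro i hi hi'
      have h5 := (Finset.sum_eq_zero_iff_of_nonpos b2).1 d2 i hi
      have h6 := hG2 i hi hi'
      rcases mul_eq_zero.1 h5 with h7 | h7
      · exact h7
      · have : fv c i = 0 := by exact_mod_cast h7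
        omega
  rcases goodAll_spec _ _ goodAll_tab F hF G hG with rfl | ⟨c, hc⟩ | ⟨c, hc⟩
  · exact ⟨fun i hi hi' => absurd hi hi', fun i hi hi' => absurd hi hi'⟩
  · exact key hw hw1 hv hv1 h c hc
  · exact (key hv hv1 hw hw1 h.symm c hc).symm

/-- two faces meet in the face spanned by the common vertices -/
lemma inter_face {s t : Finset (Fin 10)} (hs : IsFace s) (ht : IsFace t) :
    convexHull ℝ (↑(s.image pt) : Set (EuclideanSpace ℝ (Fin 4))) ∩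
      convexHull ℝ (↑(t.image pt) : Set (EuclideanSpace ℝ (Fin 4))) ⊆
      convexHull ℝ ((↑(s.image pt) : Set (EuclideanSpace ℝ (Fin 4))) ∩ ↑(t.image pt)) := by
  classical
  rintro x ⟨hx1, hx2⟩
  obtain ⟨-, F, hF, hsF⟩ := hs
  obtain ⟨-, G, hG, htG⟩ := ht
  obtain ⟨w, hw0, hw1, hw2⟩ := mem_hull.1 hx1
  obtain ⟨v, hv0, hv1, hv2⟩ := mem_hull.1 hx2
  -- extend the weights by zero
  let w' : Fin 10 → ℝ := fun i => if i ∈ s then w i else 0
  let v' : Fin 10 → ℝ := fun i => if i ∈ t then v i else 0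
  have hsub : s ⊆ F.toFinset := fun i hi => List.mem_toFinset.2 (hsF i hi)
  have tsub : t ⊆ G.toFinset := fun i hi => List.mem_toFinset.2 (htG i hi)
  have ew : ∀ i ∈ s, w' i = w i := fun i hi => by simp only [w', hi, if_true]
  have ev : ∀ i ∈ t, v' i = v i := fun i hi => by simp only [v', hi, if_true]
  have zw : ∀ i, i ∉ s → w' i = 0 := fun i hi => by simp only [w', hi, if_false]
  have zv : ∀ i, i ∉ t → v' i = 0 := fun i hi => by simp only [v', hi, if_false]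
  have w1 : ∑ i ∈ F.toFinset, w' i = 1 := by
    rw [← Finset.sum_subset hsub (fun i _ hi => zw i hi), Finset.sum_congr rfl ew, hw1]
  have v1 : ∑ i ∈ G.toFinset, v' i = 1 := by
    rw [← Finset.sum_subset tsub (fun i _ hi => zv i hi), Finset.sum_congr rfl ev, hv1]
  have w2 : ∑ i ∈ F.toFinset, w' i • pt i = x := by
    rw [← Finset.sum_subset hsub (fun i _ hi => by rw [zw i hi, zero_smul]),
      Finset.sum_congr rfl (fun i hi => by rw [ew i hi]), hw2]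
  have v2 : ∑ i ∈ G.toFinset, v' i • pt i = x := by
    rw [← Finset.sum_subset tsub (fun i _ hi => by rw [zv i hi, zero_smul]),
      Finset.sum_congr rfl (fun i hi => by rw [ev i hi]), hv2]
  have wn : ∀ i ∈ F.toFinset, 0 ≤ w' i := by
    intro i _
    by_cases h : i ∈ s
    · rw [ew i h]; exact hw0 i h
    · rw [zw i h]
  have vn : ∀ i ∈ G.toFinset, 0 ≤ v' i := by
    intro i _
    by_cases h : i ∈ t
    · rw [ev i h]; exact hv0 i h
    · rw [zv i h]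
  obtain ⟨k1, k2⟩ := inter_max hF hG wn w1 vn v1 (w2.trans v2.symm)
  -- both weight systems live on the intersection, so they agree
  have w0 : ∀ i, i ∉ F.toFinset ∩ G.toFinset → w' i = 0 := by
    intro i hi
    by_cases h : i ∈ F.toFinset
    · apply k1 i h
      intro h'
      exact hi (Finset.mem_inter.2 ⟨h, h'⟩)
    · exact zw i (fun h' => h (hsub h'))
  have v0 : ∀ i, i ∉ F.toFinset ∩ G.toFinset → v' i = 0 := by
    intro i hi
    by_cases h : i ∈ G.toFinset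
    · apply k2 i h
      intro h'
      exact hi (Finset.mem_inter.2 ⟨h', h⟩)
    · exact zv i (fun h' => h (tsub h'))
  have w1' : ∑ i ∈ F.toFinset ∩ G.toFinset, w' i = 1 := by
    rw [Finset.sum_subset Finset.inter_subset_left (fun i _ hi => w0 i hi), w1]
  have v1' : ∑ i ∈ F.toFinset ∩ G.toFinset, v' i = 1 := by
    rw [Finset.sum_subset Finset.inter_subset_right (fun i _ hi => v0 i hi), v1]
  have w2' : ∑ i ∈ F.toFinset ∩ G.toFinset, w' i • pt i = x := by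
    rw [Finset.sum_subset Finset.inter_subset_left (fun i _ hi => by rw [w0 i hi, zero_smul]), w2]
  have v2' : ∑ i ∈ F.toFinset ∩ G.toFinset, v' i • pt i = x := by
    rw [Finset.sum_subset Finset.inter_subset_right (fun i _ hi => by rw [v0 i hi, zero_smul]), v2]
  have hsubF : ∀ i ∈ F.toFinset ∩ G.toFinset, i ∈ F := fun i hi =>
    List.mem_toFinset.1 (Finset.mem_inter.1 hi).1
  have hd := indep_weights hF hsubF (fun i => w' i - v' i)
    (by rw [Finset.sum_sub_distrib, w1', v1', sub_self])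
    (by simp only [sub_smul]; rw [Finset.sum_sub_distrib, w2', v2', sub_self])
  have heq : ∀ i, w' i = v' i := by
    intro i
    by_cases hi : i ∈ F.toFinset ∩ G.toFinset
    · exact sub_eq_zero.1 (hd i hi)
    · rw [w0 i hi, v0 i hi]
  have hz : ∀ i, i ∉ s ∩ t → w' i = 0 := by
    intro i hi
    by_cases h : i ∈ s
    · rw [heq i]
      apply zv
      intro h'
      exact hi (Finset.mem_inter.2 ⟨h, h'⟩)
    · exact zw i h
  have hset : ((↑(s.image pt) : Set (EuclideanSpace ℝ (Fin 4))) ∩ ↑(t.image pt)) =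
      ↑((s ∩ t).image pt) := by
    rw [Finset.image_inter _ _ pt_inj, Finset.coe_inter]
  rw [hset, mem_hull]
  refine ⟨w', ?_, ?_, ?_⟩
  · intro i hi
    rw [ew i (Finset.mem_inter.1 hi).1]
    exact hw0 i (Finset.mem_inter.1 hi).1
  · rw [Finset.sum_subset Finset.inter_subset_left (fun i _ hi => hz i hi),
      Finset.sum_congr rfl ew, hw1]
  · rw [Finset.sum_subset Finset.inter_subset_left (fun i _ hi => by rw [hz i hi, zero_smul]),
      Finset.sum_congr rfl (fun i hi => by rw [ew i hi]), hw2]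

/-- The 2-complex `𝒞` (10 vertices, 31 edges, 25 triangles) has a straight realization in `ℝ⁴`:
there is a geometric simplicial complex in `ℝ⁴` combinatorially equivalent to `𝒞`. -/
theorem result : RealizableIn 4 := by
  classical
  refine ⟨Geometry.SimplicialComplex.ofErase
    {t | ∃ s : Finset (Fin 10), (s = ∅ ∨ IsFace s) ∧ t = s.image pt} ?_ ?_ ?_, pt, pt_inj, ?_⟩
  · rintro _ ⟨s, hs | hs, rfl⟩
    · subst hs
      have : Subsingleton {x // x ∈ Finset.image pt ∅} := by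
        rw [Finset.image_empty]
        exact ⟨fun a => absurd a.2 (Finset.notMem_empty _)⟩
      exact affineIndependent_of_subsingleton ℝ _
    · exact indep_face hs
  · rintro _ u hu ⟨s, hs, rfl⟩
    obtain ⟨u', hu', rfl⟩ := Finset.subset_image_iff.1 hu
    refine ⟨u', ?_, rfl⟩
    rcases hs with hs | hs
    · left
      subst hs
      exact Finset.subset_empty.1 hu'
    · by_cases h : u' = ∅
      · exact Or.inl h
      · right
        obtain ⟨-, F, hF, h2⟩ := hs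
        exact ⟨Finset.nonempty_iff_ne_empty.2 h, F, hF, fun i hi => h2 i (hu' hi)⟩
  · rintro _ ⟨s, hs, rfl⟩ _ ⟨t, ht, rfl⟩
    rcases hs with hs | hs
    · subst hs
      simp
    · rcases ht with ht | ht
      · subst ht
        simp
      · exact inter_face hs ht
  · ext t
    constructor
    · rintro ⟨⟨s, hs | hs, rfl⟩, hne⟩
      · subst hs
        simp at hne
      · exact ⟨s, hs, rfl⟩
    · rintro ⟨s, hs, rfl⟩
      exact ⟨⟨s, Or.inr hs, rfl⟩, fun h =>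
        Finset.nonempty_iff_ne_empty.1 hs.1 (Finset.image_eq_empty.1 h)⟩

end Pool.Agent.Results.MP_cc703c_co.RealizationInR4
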